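import Pool.Agent.Q51.EL.Stm

set_option autoImplicit false

namespace Pool.Agent.Q241.EL

open Polynomial Pool.Agent.Q51.EL Finset

theorem norm_sub_gen (F : ℚ[X]) (hF : Irreducible F) (c : ℚ) :
    F.leadingCoeff * Algebra.norm ℚ (AdjoinRoot.mk F (C c - X)) = F.eval c := by
  have hF0 : F ≠ 0 := hF.ne_zero
  set pb := AdjoinRoot.powerBasis hF0 with hpb
  have : Module.Finite ℚ (AdjoinRoot F) := pb.finite
  have : Module.Free ℚ (AdjoinRoot F) := Module.Free.of_basis pb.basis
  have h1 : (Algebra.lmul ℚ (AdjoinRoot F) pb.gen).charpoly = minpoly ℚ pb.gen := by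
    rw [← charpoly_leftMulMatrix pb, Algebra.leftMulMatrix_apply, LinearMap.charpoly_toMatrix]
  have h2 := LinearMap.eval_charpoly (f := (Algebra.lmul ℚ (AdjoinRoot F) pb.gen)) c
  have hgen : pb.gen = AdjoinRoot.root F := AdjoinRoot.powerBasis_gen hF0
  rw [h1, hgen, AdjoinRoot.minpoly_root hF0] at h2
  rw [Algebra.norm_apply]
  have h3 : (Algebra.lmul ℚ (AdjoinRoot F)) (AdjoinRoot.mk F (C c - X)) =
      algebraMap ℚ (Module.End ℚ (AdjoinRoot F)) c - (Algebra.lmul ℚ (AdjoinRoot F)) (AdjoinRoot.root F) := by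
    rw [map_sub, map_sub, AdjoinRoot.mk_X, AdjoinRoot.mk_C]
    congr 1
    rw [← AdjoinRoot.algebraMap_eq, AlgHom.commutes]
  have h4 : (LinearMap.mul ℚ (AdjoinRoot F)) (AdjoinRoot.mk F (C c - X)) =
    (Algebra.lmul ℚ (AdjoinRoot F)) (AdjoinRoot.mk F (C c - X)) := rfl
  rw [h3, ← h2, eval_mul, eval_C]
  field_simp [leadingCoeff_ne_zero.2 hF0]

theorem hom_eq (f : ℤ[X]) (x w : ℚ) (hw : w ≠ 0) :
    hom f x w = w ^ f.natDegree * (f.map (Int.castRingHom ℚ)).eval (x / w) := by
  rw [eval_eq_sum_range, natDegree_map_eq_of_injective (RingHom.injective_int _), hom, Finset.mul_sum]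
  refine Finset.sum_congr rfl fun i hi => ?_
  have hi' : i ≤ f.natDegree := Nat.lt_succ_iff.1 (Finset.mem_range.1 hi)
  rw [coeff_map, div_pow, eq_intCast]
  have h : w ^ f.natDegree = w ^ (f.natDegree - i) * w ^ i := by rw [← pow_add, Nat.sub_add_cancel hi']
  rw [h]
  field_simp

theorem hom_zero' (f : ℤ[X]) (x : ℚ) :
    hom f x 0 = f.leadingCoeff * x ^ f.natDegree := by
  rw [hom, Finset.sum_eq_single f.natDegree]
  · simp
  · intro i hi hne
    have hi' : i ≤ f.natDegree := Nat.lt_succ_iff.1 (Finset.mem_range.1 hi)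
    rw [zero_pow (by omega), mul_zero]
  · intro h
    exact absurd (Finset.mem_range.2 (Nat.lt_succ_self _)) h

theorem norm_lin (f : ℤ[X]) (hF : Irreducible (f.map (Int.castRingHom ℚ))) (x w : ℚ) :
    (f.leadingCoeff : ℚ) * Algebra.norm ℚ (AdjoinRoot.mk (f.map (Int.castRingHom ℚ)) (C x - C w * X)) =
      hom f x w := by
  have hinj := (RingHom.injective_int (Int.castRingHom ℚ))
  have hlc : (f.map (Int.castRingHom ℚ)).leadingCoeff = (f.leadingCoeff : ℚ) := by
    rw [leadingCoeff_map_of_injective hinj, eq_intCast]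
  have hdeg : (f.map (Int.castRingHom ℚ)).natDegree = f.natDegree := natDegree_map_eq_of_injective hinj _
  have hfr : Module.finrank ℚ (AdjoinRoot (f.map (Int.castRingHom ℚ))) = f.natDegree := by
    rw [(AdjoinRoot.powerBasis hF.ne_zero).finrank, AdjoinRoot.powerBasis_dim, hdeg]
  have hnC : ∀ c : ℚ, Algebra.norm ℚ (AdjoinRoot.mk (f.map (Int.castRingHom ℚ)) (C c)) =
      c ^ f.natDegree := by
    intro c
    have : Module.Finite ℚ (AdjoinRoot (f.map (Int.castRingHom ℚ))) :=
      (AdjoinRoot.powerBasis hF.ne_zero).finite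
    have : Module.Free ℚ (AdjoinRoot (f.map (Int.castRingHom ℚ))) :=
      Module.Free.of_basis (AdjoinRoot.powerBasis hF.ne_zero).basis
    rw [AdjoinRoot.mk_C, ← AdjoinRoot.algebraMap_eq, Algebra.norm_algebraMap_of_basis
      (AdjoinRoot.powerBasis hF.ne_zero).basis]
    rw [Fintype.card_fin, AdjoinRoot.powerBasis_dim, hdeg]
  by_cases hw : w = 0
  · subst hw
    rw [hom_zero', C_0, zero_mul, sub_zero, hnC]
  · have h1 : (C x - C w * X : ℚ[X]) = C w * (C (x / w) - X) := by
      rw [mul_sub, ← C_mul, mul_div_cancel₀ _ hw]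
    rw [h1, map_mul, map_mul, hnC, hom_eq f x w hw, ← norm_sub_gen _ hF, hlc]
    ring

theorem cov (f : ℤ[X]) (x w : ℚ) (h : x ≠ 0 ∨ w ≠ 0) (K : Type) [Field K] [CharZero K] :
    CovPt f (C x - C w * X) K := by
  refine ⟨(x : K), (w : K), 1, ?_, ?_⟩
  · rcases h with h | h
    · exact Or.inl (by exact_mod_cast h)
    · exact Or.inr (by exact_mod_cast h)
  · have : C (x : K) - C (w : K) * X - (C x - C w * X : ℚ[X]).map (Rat.castHom K) * 1 ^ 2 = 0 := by
      simp [Polynomial.map_sub, Polynomial.map_mul]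
    rw [this]
    exact dvd_zero _

theorem lift : S_LIFT := by
  intro f hF hn D hpt
  obtain ⟨x, w, y, hxw, hy⟩ := hpt
  have hinj := (RingHom.injective_int (Int.castRingHom ℚ))
  have hdeg : (f.map (Int.castRingHom ℚ)).natDegree = f.natDegree := natDegree_map_eq_of_injective hinj _
  refine ⟨C x - C w * X, ?_, ?_, cov f x w hxw ℝ, fun p _ => cov f x w hxw ℚ_[p]⟩
  · rw [hF.coprime_iff_not_dvd]
    intro hd
    have hne : (C x - C w * X : ℚ[X]) ≠ 0 := by
      intro h0
      have h1 : (C x - C w * X : ℚ[X]).coeff 0 = 0 := by rw [h0, coeff_zero]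
      have h2 : (C x - C w * X : ℚ[X]).coeff 1 = 0 := by rw [h0, coeff_zero]
      simp [coeff_C] at h1 h2
      rcases hxw with h | h
      · exact h h1
      · exact h h2
    have h3 := natDegree_le_of_dvd hd hne
    have h4 : (C x - C w * X : ℚ[X]).natDegree ≤ 1 := by
      refine (natDegree_sub_le _ _).trans ?_
      rw [natDegree_C]
      have := natDegree_C_mul_le w (X : ℚ[X])
      rw [natDegree_X] at this
      omega
    omega
  · refine ⟨D * y, ?_⟩
    have h := norm_lin f hF x w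
    push_cast
    rw [mul_assoc, h, ← hy]
    ring

end Pool.Agent.Q241.EL
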